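import Pool.Agent.MP_3ee8cb_gt.DN.Spec

/-! Rigidity in every dimension under pinching: the statements of the new blocks. -/

namespace Pool.Agent.MP_3ee8cb_gt.DN

variable [Dim]

open Set Filter Topology MeasureTheory
open CR (Met UT Riem Deck RP dd ng tm FdP MinP)
open scoped RealInnerProductSpace

noncomputable section

/-! ### Pure analysis on the sphere -/

/-- `ξ` is of class `C¹` off the origin and homogeneous of degree one. -/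
structure H1 {W : Type} [NormedAddCommGroup W] [NormedSpace ℝ W] (ξ : V → W) : Prop where
  c1 : ContDiffOn ℝ 1 ξ {a | a ≠ 0}
  hom : ∀ (r : ℝ) a, r ≠ 0 → a ≠ 0 → ξ (r • a) = r • ξ a

/-- The cone over an odd sphere in de Sitter space. -/
structure DS (t : V → ℝ) (ξ : V → V) : Prop where
  ht : H1 t
  hx : H1 ξ
  nm : ∀ a, a ≠ 0 → ‖ξ a‖ ^ 2 - t a ^ 2 = ‖a‖ ^ 2

/-- The area of an odd spacelike graph. -/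
def SG : Prop := ∀ τ : V → ℝ, H1 τ → (∀ a, ‖a‖ = 1 → ‖fderiv ℝ τ a‖ < 1) →
  sph (fun a => √(1 - ‖fderiv ℝ τ a‖ ^ 2) / √(1 - τ a ^ 2) ^ dm) ≤ sph fun _ => 1

/-- A homogeneous local diffeomorphism is invertible; change of variables. -/
def SCOV : Prop := ∀ ξ : V → V, H1 ξ → (∀ a, ‖a‖ = 1 → (fderiv ℝ ξ a).det ≠ 0) →
  ∃ W : V → V, H1 W ∧ (∀ a, a ≠ 0 → ξ a ≠ 0 ∧ W (ξ a) = a) ∧
    (∀ u, u ≠ 0 → W u ≠ 0 ∧ ξ (W u) = u) ∧ ∀ f : V → ℝ, ContinuousOn f {a | ‖a‖ = 1} →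
      sph f = sph fun a => |(fderiv ℝ ξ a).det| / ‖ξ a‖ ^ dm * f (‖ξ a‖⁻¹ • ξ a)

/-- The area bound in de Sitter space. -/
def SGA : Prop := ∀ (t : V → ℝ) (ξ : V → V) (N : V → V →L[ℝ] V), DS t ξ →
  ContinuousOn N {a | ‖a‖ = 1} → (∀ a, ‖a‖ = 1 → (N a).det ≠ 0 ∧
    ∀ e, ‖N a e‖ ^ 2 ≤ ‖fderiv ℝ ξ a e‖ ^ 2 - fderiv ℝ t a e ^ 2) →
  sph (fun a => |(N a).det|) ≤ sph fun _ => 1

/-- A continuous nonnegative function of two lines that vanishes on the diagonal. -/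
structure Two (ρ : V → V → ℝ) : Prop where
  cont : ContinuousOn (fun q : V × V => ρ q.1 q.2) {q | q.1 ≠ 0 ∧ q.2 ≠ 0}
  pos : ∀ a b, 0 ≤ ρ a b
  diag : ∀ a, ρ a a = 0
  hom : ∀ (r s : ℝ) a b, r ≠ 0 → s ≠ 0 → a ≠ 0 → b ≠ 0 → ρ (r • a) (s • b) = ρ a b

/-- The gradient of `ρ a` at `b` is bounded by `L b`. -/
def Grd (ρ L : V → V → ℝ) : Prop := ∀ a b, ‖a‖ = 1 → ‖b‖ = 1 → ∃ D : V →L[ℝ] ℝ,
  HasFDerivAt (fun u => ρ a u ^ 2 / 2) D b ∧ ∀ e, |D e| ≤ ρ a b * L b e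

/-- A Poincare inequality. -/
def SPO : Prop := ∃ C : ℝ, 0 ≤ C ∧ ∀ (ρ : V → V → ℝ) (g : V → ℝ), Two ρ →
  ContinuousOn g {a | ‖a‖ = 1} → (∀ a, ‖a‖ = 1 → 0 ≤ g a) → Grd ρ (fun a e => g a * ‖e‖) →
  ∃ u, ‖u‖ = 1 ∧ sph (fun a => ρ u a ^ 2) ≤ C * sph fun a => g a ^ 2

/-- The Poincare inequality in the parameter `ξ`. -/
def SPW : Prop := ∀ K : ℝ, 0 < K → ∃ C : ℝ, 0 ≤ C ∧ ∀ (ξ : V → V) (N : V → V →L[ℝ] V)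
  (ρ : V → V → ℝ) (g : V → ℝ), H1 ξ → Two ρ → ContinuousOn N {a | ‖a‖ = 1} →
  ContinuousOn g {a | ‖a‖ = 1} → Grd ρ (fun a e => g a * ‖N a e‖) →
  (∀ a, ‖a‖ = 1 → (N a).det ≠ 0 ∧ 0 ≤ g a ∧ 1 ≤ ‖ξ a‖ ∧ ‖ξ a‖ ≤ K ∧ ∀ e,
    ‖N a e‖ ≤ ‖fderiv ℝ ξ a e‖ ∧ ‖fderiv ℝ ξ a e‖ ≤ K * ‖N a e‖) →
  ∃ u, ‖u‖ = 1 ∧ sph (fun a => |(N a).det| * ρ u a ^ 2) ≤ C * sph fun a => |(N a).det| * g a ^ 2

/-! ### The Riccati inequality -/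

/-- The operator `A ∘ A'⁻¹` of a front. -/
def MF.B (m : MF) (σ : V → V × V) (a : V) : V →L[ℝ] V := (m.A σ a).comp (m.A' σ a).inverse

/-- Its trace. -/
def MF.tr (m : MF) (σ : V → V × V) (a : V) : ℝ := LinearMap.trace ℝ V (m.B σ a : V →ₗ[ℝ] V)

structure Ric2 (m m' : MF) (φ : V × V → V × V) (a : ℝ) (z : V × V) : Prop where
  ne : (m'.A' (fr φ z.1) z.2).det ≠ 0
  bd : a * ‖m'.B (fr φ z.1) z.2‖ ≤ 1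
  der : ∃ d, HasDerivAt (fun t => m'.tr (fr φ (m.Z t z).1) (m.Z t z).2) d 0 ∧
    d ≤ 2 * Real.log |(m'.A' (fr φ z.1) z.2).det| - (a * ‖m'.B (fr φ z.1) z.2‖) ^ 2

def SOD2 : Prop := OnC fun m m' φ a _ => Sy m m' φ → (∃ T₀, ∀ x, m'.Good (fr φ x) T₀) ∧
  ∀ z : V × V, ‖z.2‖ = 1 → Ric2 m m' φ a z

/-! ### One front -/

/-- The hinge inequality for curvature at most `-a ^ 2`. -/
def Hin (m : MF) (lg : V × V → V) (a : ℝ) : Prop := ∀ (y u v : V) (s t : ℝ), ‖u‖ = 1 →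
  ‖v‖ = 1 → 0 ≤ s → 0 ≤ t → Real.cosh (a * s) * Real.cosh (a * t) -
    ⟪u, v⟫ * Real.sinh (a * s) * Real.sinh (a * t) ≤
      Real.cosh (a * ‖lg ((m.Z s (y, u)).1, (m.Z t (y, v)).1)‖)

def SHN : Prop := On1 fun h C _ _ _ Ψ => ∀ (m : MF) (lg : V × V → V) (a : ℝ), m.OK →
  Lk h C Ψ m → 0 < a → TB.CurvLe h a → (∀ y z, ‖lg (y, z)‖ = dd h y z) → Hin m lg a

/-- The feet of a front have bounded diameter. -/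
def SD0 : Prop := OnF fun m lg σ T => Wid m lg σ T → ∀ a, 0 < a → Hin m lg a →
  ∀ v v', ‖v‖ = 1 → ‖v'‖ = 1 → a * ‖lg ((σ v).1, (σ v').1)‖ ≤ 3 / 2

/-- The curvature tensor is close to the one of constant curvature. -/
def SPOL : Prop := ∀ (m : MF) (lo hi : ℝ), m.OK → m.Jac → m.Up lo → m.Dn hi → ∀ y u v w,
  ‖m.K y u v w + lo • (⟪v, w⟫ • u - ⟪u, w⟫ • v)‖ ≤ 2 * (hi - lo) * ‖u‖ * ‖v‖ * ‖w‖

/-- A statement about a front of bounded diameter in a pinched space. -/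
def OnP (δ : ℝ) (P : MF → (V × V → V) → (V → V × V) → ℝ → Prop) : Prop :=
  ∀ (m : MF) (lg : V × V → V) (σ : V → V × V) (a : ℝ), m.OK → m.Jac → m.Had lg → m.Front σ →
    0 < a → m.Up 0 → m.Up (a ^ 2) → m.Dn ((1 + δ) * a ^ 2) → P m lg σ a

/-- The front transplanted to de Sitter space by the Cartan connection. -/
def STR : Prop := ∃ c K : ℝ, 0 < c ∧ 0 < K ∧ ∀ δ, 0 ≤ δ → δ ≤ 1 → OnP δ fun m lg σ a =>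
  ∀ o, (∀ v, ‖v‖ = 1 → a * ‖lg ((σ v).1, o)‖ ≤ 3 / 2) → ∃ t ξ, DS t ξ ∧ ∀ v, ‖v‖ = 1 →
    ‖ξ v‖ ≤ K ∧ ∀ e (β : ℝ), 0 ≤ β → β ≤ 1 → a * ‖m.A σ v e‖ ≤ β * ‖m.A' σ v e‖ →
      ‖fderiv ℝ ξ v e‖ ≤ K * ‖m.A' σ v e‖ ∧
      (1 - c * δ * (a * ‖lg ((σ v).1, o)‖) * β) * ‖m.A' σ v e‖ ^ 2 ≤
        ‖fderiv ℝ ξ v e‖ ^ 2 - fderiv ℝ t v e ^ 2

/-- The fibre inequality. -/
def SFI : Prop := ∃ δ : ℝ, 0 < δ ∧ OnP δ fun m lg σ a =>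
  (∀ v v', ‖v‖ = 1 → ‖v'‖ = 1 → a * ‖lg ((σ v).1, (σ v').1)‖ ≤ 3 / 2) →
  (∀ v, ‖v‖ = 1 → (m.A' σ v).det ≠ 0 ∧ a * ‖m.B σ v‖ ≤ 1) →
  sph (fun v => |(m.A' σ v).det| * (1 - (a * ‖m.B σ v‖) ^ 2 / 8)) ≤ sph fun _ => 1

/-! ### The theorem -/

/-- Rigidity under a conjugacy of class `C¹`. -/
def MainN (δ : ℝ) : Prop := On2 fun g h _ C' _ _ _ _ _ _ _ _ ρ F => ∀ a hi, 0 < a →
  hi ≤ (1 + δ) * a ^ 2 → TB.CurvLe g 0 → Pin h C' (a ^ 2) hi → C1L F → C1L F.symm → Iso g h ρ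

end

end Pool.Agent.MP_3ee8cb_gt.DN
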