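import Pool.Agent.MP_3ee8cb_gt.DN.Top2
import Pool.Agent.MP_3ee8cb_gt.DNWI.Base

/-! The fibre inequality from the transplanted front, the area bound and the Poincare step. -/

namespace Pool.Agent.MP_3ee8cb_gt.DN

variable [Dim]

open Set MeasureTheory
open scoped RealInnerProductSpace

theorem det_smul (c : ℝ) (M : V →L[ℝ] V) : (c • M).det = c ^ dm * M.det := by
  rw [ContinuousLinearMap.det, ContinuousLinearMap.toLinearMap_smul, LinearMap.det_smul,
    finrank_euclideanSpace_fin]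

theorem sph_mul (c : ℝ) (f : V → ℝ) : sph (fun a => c * f a) = c * sph f :=
  integral_const_mul _ _

theorem sph_mono {f g : V → ℝ} (hf : ContinuousOn f {a | ‖a‖ = 1})
    (hg : ContinuousOn g {a | ‖a‖ = 1}) (h : ∀ a, ‖a‖ = 1 → f a ≤ g a) : sph f ≤ sph g :=
  integral_mono (sph_int hf) (sph_int hg) fun a => h a (by simp)

theorem sph_sub {f g : V → ℝ} (hf : ContinuousOn f {a | ‖a‖ = 1})
    (hg : ContinuousOn g {a | ‖a‖ = 1}) : sph (fun a => f a - g a) = sph f - sph g :=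
  integral_sub (sph_int hf) (sph_int hg)

theorem sph_congr {f g : V → ℝ} (h : ∀ a, ‖a‖ = 1 → f a = g a) : sph f = sph g :=
  integral_congr_ae (.of_forall fun a => h a (by simp))

variable {m : MF} {lg : V × V → V} {σ : V → V × V} {a : ℝ}

theorem two_of (ho : m.OK) (hj : m.Jac) (hl : m.Had lg) (hf : m.Front σ) (ha : 0 < a) :
    Two fun u v => a * ‖lg ((σ u).1, (σ v).1)‖ where
  cont := continuousOn_const.mul (hl.c1.continuous.comp_continuousOn
    ((hf.c1.continuousOn.comp continuousOn_fst fun _ h => h.1).fst.prodMk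
      (hf.c1.continuousOn.comp continuousOn_snd fun _ h => h.2).fst)).norm
  pos _ _ := by positivity
  diag u := by rw [DNWI.lg_self ho hj hl, norm_zero, mul_zero]
  hom r s u v hr hs hu hv := by rw [hf.hom r u hr hu, hf.hom s v hs hv]

theorem grd_of (hj : m.Jac) (hl : m.Had lg) (hf : m.Front σ) (ha : 0 < a) :
    Grd (fun u v => a * ‖lg ((σ u).1, (σ v).1)‖) fun v e => a * ‖m.A σ v e‖ := by
  intro u v _ hv
  have d0 := (DNWI.front_diff hf (DNWI.ne_of_norm hv)).hasFDerivAt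
  have d1 : Differentiable ℝ fun q => ‖lg q‖ ^ 2 / 2 :=
    ((hl.c1.norm_sq ℝ).div_const (2 : ℝ)).differentiable one_ne_zero
  have d2 := ((d1 ((σ u).1, (σ v).1)).hasFDerivAt.comp v
    ((hasFDerivAt_const (σ u).1 v).prodMk d0.fst)).const_mul (a ^ 2)
  refine ⟨_, d2.congr_of_eventuallyEq (.of_forall fun w => ?_), fun e => ?_⟩
  · simp only [Function.comp_apply]
    ring
  · have k := hl.grad ((σ u).1, (σ v).1) (0, (fderiv ℝ σ v e).1)
    have k2 := abs_real_inner_le_norm (lg ((σ v).1, (σ u).1)) (m.A σ v e)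
    rw [DNWI.lg_symm hj hl] at k2
    have e1 : m.S (σ v).1 (fderiv ℝ σ v e).1 = m.A σ v e := rfl
    rw [map_zero, inner_zero_right, neg_zero, zero_sub, Prod.swap_prod_mk, e1] at k
    change |a ^ 2 * fderiv ℝ (fun q => ‖lg q‖ ^ 2 / 2) ((σ u).1, (σ v).1)
      (0, (fderiv ℝ σ v e).1)| ≤ _
    rw [k, abs_mul, abs_neg, abs_of_nonneg (sq_nonneg a)]
    nlinarith [mul_le_mul_of_nonneg_left k2 (sq_nonneg a)]

theorem one_num {y x r b k : ℝ} (hy : 0 ≤ y) (hk : 0 ≤ k) (hx : x = k * r * b) (h1 : x ≤ 1) :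
    y - dm * k / 2 * (y * r ^ 2) - dm * k / 2 * (y * b ^ 2) ≤ (1 - x) ^ dm * y := by
  have h := one_add_mul_le_pow (a := -x) (by linarith) dm
  have h2 : x ≤ k / 2 * (r ^ 2 + b ^ 2) := by nlinarith [mul_nonneg hk (sq_nonneg (r - b))]
  have h3 := mul_le_mul_of_nonneg_left h2 (mul_nonneg (Nat.cast_nonneg (α := ℝ) dm) hy)
  have h4 := mul_le_mul_of_nonneg_right h hy
  rw [← sub_eq_add_neg] at h4
  nlinarith

theorem one_int {y R B G : V → ℝ} {k C : ℝ} (cy : ContinuousOn y {a | ‖a‖ = 1})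
    (cR : ContinuousOn R {a | ‖a‖ = 1}) (cB : ContinuousOn B {a | ‖a‖ = 1})
    (cG : ContinuousOn G {a | ‖a‖ = 1}) (hk : 0 ≤ k) (h2 : k * (C + 1) ≤ 1 / 8) (p : 0 ≤ sph B)
    (po : sph R ≤ C * sph B) (pt : ∀ v, ‖v‖ = 1 → y v - k * R v - k * B v ≤ G v) :
    sph (fun v => y v - 1 / 8 * B v) ≤ sph G := by
  have k1 : ContinuousOn (fun v => k * R v) {a | ‖a‖ = 1} := continuousOn_const.mul cR
  have k2 : ∀ l : ℝ, ContinuousOn (fun v => l * B v) {a | ‖a‖ = 1} := fun _ =>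
    continuousOn_const.mul cB
  have k3 : ContinuousOn (fun v => y v - k * R v) {a | ‖a‖ = 1} := cy.sub k1
  refine le_trans ?_ (sph_mono (f := fun v => y v - k * R v - k * B v) (k3.sub (k2 k)) cG pt)
  rw [sph_sub k3 (k2 k), sph_sub cy k1, sph_sub cy (k2 _), sph_mul, sph_mul, sph_mul]
  nlinarith [mul_le_mul_of_nonneg_left po hk, mul_le_mul_of_nonneg_right h2 p]

theorem fi_of (tr : STR) (ga : SGA) (pw : SPW) : SFI := by
  obtain ⟨c, K, hc, hK, tr⟩ := tr
  obtain ⟨C, hC, pw⟩ := pw (2 * K) (by positivity)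
  have n3 : (3 : ℝ) ≤ dm := by exact_mod_cast Nat.le_add_left 3 _
  obtain ⟨δ, hδ, δ1, δ2⟩ : ∃ δ : ℝ, 0 < δ ∧ δ ≤ 1 ∧ dm * (c * δ) * (4 * C + 1) ≤ 1 / 4 := by
    have p : 0 < 4 * dm * c * (4 * C + 1) := by positivity
    refine ⟨min 1 (1 / (4 * dm * c * (4 * C + 1))), by positivity, min_le_left _ _, ?_⟩
    have := (le_div_iff₀ p).1 (min_le_right 1 (1 / (4 * dm * c * (4 * C + 1))))
    linarith
  have ck : 0 < c * δ := by positivity
  have δ3 : c * δ ≤ 1 / 12 := by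
    nlinarith [mul_nonneg (mul_nonneg (by linarith : (0 : ℝ) ≤ dm) ck.le) hC,
      mul_le_mul_of_nonneg_right n3 ck.le]
  refine ⟨δ, hδ, fun m lg σ a ho hj hl hf ha u0 u1 d1 hd hb => ?_⟩
  replace tr := fun u (hu : ‖u‖ = 1) => tr δ hδ.le δ1 m lg σ a ho hj hl hf ha u0 u1 d1 (σ u).1
    fun v hv => hd v u hv hu
  have sub : {v : V | ‖v‖ = 1} ⊆ {v | v ≠ 0} := fun v hv => DNWI.ne_of_norm hv
  have cσ := hf.c1.continuousOn.mono sub
  have cd := (hf.c1.continuousOn_fderiv_of_isOpen isOpen_ne le_rfl).mono sub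
  have cA : ContinuousOn (m.A σ) {v | ‖v‖ = 1} := ((SC.c_hor ho).comp_continuousOn cσ).clm_comp cd
  have cA' : ContinuousOn (m.A' σ) {v | ‖v‖ = 1} :=
    ((SC.c_ver ho).comp_continuousOn cσ).clm_comp cd
  have cb : ContinuousOn (fun v => a * ‖m.B σ v‖) {v | ‖v‖ = 1} :=
    continuousOn_const.mul (cA.clm_comp (c_inv cA' fun v hv => (hb v hv).1)).norm
  have cy : ContinuousOn (fun v => |(m.A' σ v).det|) {v | ‖v‖ = 1} :=
    (ContinuousLinearMap.continuous_det.comp_continuousOn cA').abs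
  have ab : ∀ v, ‖v‖ = 1 → ∀ e, a * ‖m.A σ v e‖ ≤ a * ‖m.B σ v‖ * ‖m.A' σ v e‖ := fun v hv e => by
    rw [← B_app (hb v hv).1, mul_assoc]
    exact mul_le_mul_of_nonneg_left ((m.B σ v).le_opNorm _) ha.le
  have sm : ∀ u v, ‖u‖ = 1 → ‖v‖ = 1 → 0 ≤ c * δ * (a * ‖lg ((σ v).1, (σ u).1)‖) * (a * ‖m.B σ v‖)
      ∧ c * δ * (a * ‖lg ((σ v).1, (σ u).1)‖) * (a * ‖m.B σ v‖) ≤ 1 / 2 := fun u v hu hv =>
    ⟨by positivity, (mul_le_mul (mul_le_mul δ3 (hd v u hv hu) (by positivity) (by norm_num))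
      (hb v hv).2 (by positivity) (by norm_num)).trans (by norm_num)⟩
  have hN : ∀ v e, ‖((1 / 2 : ℝ) • m.A' σ v) e‖ = ‖m.A' σ v e‖ / 2 := fun v e => by
    rw [smul_apply, norm_smul, Real.norm_eq_abs, abs_of_pos one_half_pos]
    ring
  have u1' : ‖(EuclideanSpace.single 0 1 : V)‖ = 1 := by simp
  obtain ⟨t₀, ξ₀, ds₀, e₀⟩ := tr _ u1'
  obtain ⟨u, hu, po⟩ := pw ξ₀ (fun v => (1 / 2 : ℝ) • m.A' σ v) _
    (fun v => 2 * (a * ‖m.B σ v‖)) ds₀.hx (two_of ho hj hl hf ha) (cA'.const_smul (1 / 2 : ℝ))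
    (continuousOn_const.mul cb)
    (fun u v hu hv => (grd_of hj hl hf ha u v hu hv).imp fun D hD => ⟨hD.1, fun e =>
      (hD.2 e).trans (mul_le_mul_of_nonneg_left (by
        simp only [hN]
        linarith [ab v hv e]) (by positivity))⟩)
    fun v hv => ⟨by
      rw [det_smul]
      exact mul_ne_zero (by positivity) (hb v hv).1, by positivity, by
      have := ds₀.nm v (sub hv)
      rw [hv] at this
      nlinarith [norm_nonneg (ξ₀ v), sq_nonneg (t₀ v)], by linarith [(e₀ v hv).1], fun e => by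
      obtain ⟨k1, k2⟩ := (e₀ v hv).2 e _ (by positivity) (hb v hv).2 (ab v hv e)
      rw [hN]
      refine ⟨abs_le_of_sq_le_sq' ?_ (norm_nonneg _) |>.2, by linarith⟩
      nlinarith [(sm _ v u1' hv).2, sq_nonneg ‖m.A' σ v e‖, sq_nonneg (fderiv ℝ t₀ v e)]⟩
  have cr : ContinuousOn (fun v => a * ‖lg ((σ v).1, (σ u).1)‖) {v | ‖v‖ = 1} :=
    continuousOn_const.mul (hl.c1.continuous.comp_continuousOn
      (cσ.fst.prodMk continuousOn_const)).norm
  have po2 : sph (fun v => |(m.A' σ v).det| * (a * ‖lg ((σ v).1, (σ u).1)‖) ^ 2) ≤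
      4 * C * sph fun v => |(m.A' σ v).det| * (a * ‖m.B σ v‖) ^ 2 := by
    have p : (0 : ℝ) < (1 / 2) ^ dm := by positivity
    refine le_of_mul_le_mul_left ?_ p
    rw [← sph_mul, mul_left_comm, ← sph_mul, mul_comm 4 C, mul_assoc, ← sph_mul]
    refine (sph_congr fun v _ => ?_).trans_le (po.trans_eq (congrArg _ (sph_congr fun v _ => ?_)))
    · rw [det_smul, abs_mul, abs_of_pos p, DNWI.lg_symm hj hl, mul_assoc]
    · rw [det_smul, abs_mul, abs_of_pos p]
      ring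
  obtain ⟨t, ξ, ds, e₁⟩ := tr u hu
  have cx := (continuousOn_const (c := (1 : ℝ))).sub
    (((continuousOn_const (c := c * δ)).mul cr).mul cb)
  have g := ga t ξ (fun v => (1 - c * δ * (a * ‖lg ((σ v).1, (σ u).1)‖) * (a * ‖m.B σ v‖)) •
    m.A' σ v) ds (cx.smul cA') fun v hv => ⟨by
      rw [det_smul]
      exact mul_ne_zero (pow_ne_zero _ (by linarith [(sm u v hu hv).2])) (hb v hv).1, fun e => by
      refine le_trans ?_ ((e₁ v hv).2 e _ (by positivity) (hb v hv).2 (ab v hv e)).2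
      rw [smul_apply, norm_smul, mul_pow, Real.norm_eq_abs, sq_abs]
      refine mul_le_mul_of_nonneg_right ?_ (sq_nonneg _)
      nlinarith [(sm u v hu hv).1, (sm u v hu hv).2]⟩
  refine le_trans ?_ g
  refine (sph_congr fun v _ => ?_).trans_le (one_int (k := dm * (c * δ) / 2) cy
    (cy.mul (cr.pow 2)) (cy.mul (cb.pow 2))
    (ContinuousLinearMap.continuous_det.comp_continuousOn (cx.smul cA')).abs (by positivity)
    (by linarith) (integral_nonneg fun _ => mul_nonneg (abs_nonneg _) (sq_nonneg _)) po2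
    fun v hv => ?_)
  · simp only [Pi.mul_apply, Pi.pow_apply]
    ring
  · have k := (sm u v hu hv).2
    refine (one_num (abs_nonneg (m.A' σ v).det) ck.le rfl (k.trans (by norm_num))).trans_eq ?_
    rw [← abs_of_nonneg (a := _ ^ dm) (pow_nonneg (by linarith) _), ← abs_mul, ← det_smul]

end Pool.Agent.MP_3ee8cb_gt.DN
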