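import Pool.Agent.MP_3ee8cb_gt.DN.Defs
import Pool.Agent.MP_3ee8cb_gt.LV.Spec
import Pool.Agent.MP_3ee8cb_gt.TB.Spec

/-! Rigidity in dimension three: the statements of the blocks. -/

namespace Pool.Agent.MP_3ee8cb_gt.DN

variable [Dim]

open Set Filter Topology MeasureTheory
open CR (Met UT Riem Deck RP dd ng tm FdP MinP)
open LV (QP CJ Hinge)
open scoped RealInnerProductSpace

noncomputable section

/-! ### Block FL: from metrics to frames -/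

/-- The frame data `m` belong to the metric `h` with connection `C` and flow `Ψ`. -/
structure Lk (h : Met dm) (C : TB.Chr dm) (Ψ : ℝ → UT h → UT h) (m : MF) : Prop where
  orth : ∀ y a b, h y (m.R y a) (m.R y b) = ⟪a, b⟫
  conn : ∀ y u a, m.om y u a = m.S y (fderiv ℝ m.R y u a + C y u (m.R y a))
  curv : ∀ y a b c, m.K y a b c = m.S y (TB.Rm C y (m.R y a) (m.R y b) (m.R y c))
  flow : ∀ t (p : UT h), m.Z t (p.1.1, m.S p.1.1 p.1.2) =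
    ((Ψ t p).1.1, m.S (Ψ t p).1.1 (Ψ t p).1.2)

/-- Sectional curvatures lie between `-hi` and `-lo`. -/
def Pin (h : Met dm) (C : TB.Chr dm) (lo hi : ℝ) : Prop := ∀ x u v,
  -hi * (h x u u * h x v v - h x u v ^ 2) ≤ h x (TB.Rm C x u v v) u ∧
    h x (TB.Rm C x u v v) u ≤ -lo * (h x u u * h x v v - h x u v ^ 2)

/-- The group acts by maps of class `C²`. -/
def D2 (Γ : Type) [Group Γ] [MulAction Γ V] : Prop := ∀ γ : Γ, ContDiff ℝ 2 fun x : V => γ • x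

/-- `F` is of class `C¹`. -/
def C1L {g h : Met dm} (F : UT g → UT h) : Prop := ∀ p, ∃ G : V × V → V × V,
  ContDiffAt ℝ 1 G p.1 ∧ ∀ᶠ q in 𝓝 p, (F q).1 = G q.1

/-- A statement about one manifold. -/
def On1 (P : ∀ (h : Met dm) (_ : TB.Chr dm) (Λ : Type) [Group Λ] [MulAction Λ V]
    (_ : ℝ → UT h → UT h), Prop) : Prop :=
  ∀ (h : Met dm) (C : TB.Chr dm) (Λ : Type) [Group Λ] [MulAction Λ V] (Ψ : ℝ → UT h → UT h),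
    QP h Λ Ψ → TB.IsChr h C → P h C Λ Ψ

/-- A statement about a lifted conjugacy. -/
def On2 (P : ∀ (g h : Met dm) (_ _ : TB.Chr dm) (Γ Λ : Type) [Group Γ] [Group Λ] [MulAction Γ V]
    [MulAction Λ V] (_ : ℝ → UT g → UT g) (_ : ℝ → UT h → UT h) (_ : Γ ≃* Λ)
    (_ : UT g ≃ₜ UT h), Prop) : Prop :=
  ∀ (g h : Met dm) (C C' : TB.Chr dm) (Γ Λ : Type) [Group Γ] [Group Λ] [MulAction Γ V]
    [MulAction Λ V] (Φ : ℝ → UT g → UT g) (Ψ : ℝ → UT h → UT h) (ρ : Γ ≃* Λ)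
    (F : UT g ≃ₜ UT h), QP g Γ Φ → QP h Λ Ψ → TB.IsChr g C → TB.IsChr h C' → D2 Γ → D2 Λ →
      CJ g h Φ Ψ ρ F → P g h C C' Γ Λ Φ Ψ ρ F

def SJAC : Prop := ∀ m : MF, m.OK → m.Jac

def SFRM : Prop := On1 fun h C _ _ _ Ψ => ∃ m : MF, m.OK ∧ Lk h C Ψ m

def SHAD : Prop := On1 fun h C _ _ _ Ψ => ∀ (m : MF) (a : ℝ), m.OK → m.Jac → Lk h C Ψ m → 0 < a →
  TB.CurvLe h a → ∃ lg, m.Had lg ∧ ∀ y z, ‖lg (y, z)‖ = dd h y z

def SACT : Prop := On1 fun h C Λ _ _ Ψ => ∀ m : MF, m.OK → Lk h C Ψ m → D2 Λ →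
  ∃ O, Act m Λ O

/-- A time shift makes the conjugacy commute with the flip. -/
def SFLP : Prop := On2 fun g h _ _ _ _ _ _ _ _ Φ Ψ ρ F => ∀ a, 0 < a → TB.CurvLe h a →
  MinP g Φ ∧ ∃ (c : ℝ) (F' : UT g ≃ₜ UT h), (∀ p, F' p = Ψ c (F p)) ∧ CJ g h Φ Ψ ρ F' ∧
    ∀ p, F' (ng p) = ng (F' p)

def SC1 : Prop := On2 fun g h _ _ _ _ _ _ _ _ _ Ψ _ F => ∀ (c : ℝ) (F' : UT g ≃ₜ UT h),
  (∀ p, F' p = Ψ c (F p)) → C1L F → C1L F.symm → C1L F' ∧ C1L F'.symm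

/-- `φ` is equivariant. -/
def Eqv {Γ Λ : Type} [Group Γ] [Group Λ] [MulAction Γ V] [MulAction Λ V] (ρ : Γ ≃* Λ)
    (O : Γ → V → V ≃ₗᵢ[ℝ] V) (O' : Λ → V → V ≃ₗᵢ[ℝ] V) (φ : V × V → V × V) : Prop :=
  ∀ (γ : Γ) (z : V × V), z.2 ≠ 0 →
    φ (γ • z.1, O γ z.1 z.2) = (ρ γ • (φ z).1, O' (ρ γ) (φ z).1 (φ z).2)

def SCF : Prop := On2 fun g h C C' Γ Λ _ _ _ _ Φ Ψ ρ F => ∀ (m m' : MF) O O', m.OK → m.Jac →
  m'.OK → m'.Jac → Lk g C Φ m → Lk h C' Ψ m' → Act m Γ O → Act m' Λ O' → MinP g Φ →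
  (∀ p, F (ng p) = ng (F p)) → C1L F → C1L F.symm → ∃ φ, CF m m' φ ∧ Eqv ρ O O' φ

/-! ### Block LN: the conjugacy is a contact map -/

structure Sy (m m' : MF) (φ : V × V → V × V) : Prop where
  al : ∀ z ξ : V × V, z.2 ≠ 0 → ⟪(φ z).2, m'.hor (φ z) (fderiv ℝ φ z ξ)⟫ = ⟪z.2, m.hor z ξ⟫
  om : ∀ z ξ η : V × V, z.2 ≠ 0 →
    ⟪m'.hor (φ z) (fderiv ℝ φ z ξ), m'.ver (φ z) (fderiv ℝ φ z η)⟫ -
      ⟪m'.ver (φ z) (fderiv ℝ φ z ξ), m'.hor (φ z) (fderiv ℝ φ z η)⟫ =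
    ⟪m.hor z ξ, m.ver z η⟫ - ⟪m.ver z ξ, m.hor z η⟫

/-- A statement about a conjugacy in frames. -/
def OnC (P : MF → MF → (V × V → V × V) → ℝ → ℝ → Prop) : Prop :=
  ∀ (m m' : MF) (φ : V × V → V × V) (a hi : ℝ), m.OK → m.Jac → m'.OK → m'.Jac → CF m m' φ →
    0 < a → m.Up 0 → m'.Up (a ^ 2) → m'.Dn hi → P m m' φ a hi

def SSY : Prop := OnC fun m m' φ _ _ => Sy m m' φ ∧ ∀ x, m'.Front (fr φ x)

/-! ### Block OD: the diamond and the Riccati inequality -/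

/-- The Riccati inequality at a unit vector. -/
structure Ric (m m' : MF) (φ : V × V → V × V) (a c : ℝ) (z : V × V) : Prop where
  ne : ∀ s, |s| ≤ c → m'.dt (fr φ z.1) s z.2 ≠ 0
  pos : 0 ≤ m'.sq (fr φ z.1) z.2
  zero : m'.sq (fr φ z.1) z.2 = 0 → m'.A (fr φ z.1) z.2 = 0
  der : ∃ d, HasDerivAt (fun t => m'.mu (fr φ (m.Z t z).1) c (m.Z t z).2) d 0 ∧
    d / 2 ≤ |m'.dt (fr φ z.1) 0 z.2| - c ^ 2 * |m'.dl (fr φ z.1) z.2| - 1 -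
      (a ^ 2 - c ^ 2) / 2 * m'.sq (fr φ z.1) z.2

def SOD : Prop := OnC fun m m' φ a _ => Sy m m' φ → (∃ T₀, ∀ x, m'.Good (fr φ x) T₀) ∧
  ∀ c, 0 < c → c < a → ∀ z : V × V, ‖z.2‖ = 1 → Ric m m' φ a c z

/-! ### Blocks AR and GB: one front -/

/-- The front at time `T`. -/
def zz (m : MF) (σ : V → V × V) (T : ℝ) (a : V) : V := (m.Z T (σ a)).1

/-- The front at time `T` has constant width. -/
structure Wid (m : MF) (lg : V × V → V) (σ : V → V × V) (T : ℝ) : Prop where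
  diam : ∀ a a', ‖a‖ = 1 → ‖a'‖ = 1 → ‖lg (zz m σ T a, zz m σ T a')‖ ≤ 2 * T
  eq : ∀ a a', ‖a‖ = 1 → ‖a'‖ = 1 → ‖lg (zz m σ T a, zz m σ T a')‖ = 2 * T → a' = -a
  out : ∀ a a₀, ‖a‖ = 1 → ‖a₀‖ = 1 → ∀ s ∈ Icc (0 : ℝ) 1,
    (m.Z s ((σ a).1, lg ((σ a).1, (σ a₀).1))).1 ≠ zz m σ T a
  rad : ∀ a a' a₀ (r : ℝ), ‖a‖ = 1 → ‖a'‖ = 1 → ‖a₀‖ = 1 → 0 < r →
    lg ((σ a₀).1, zz m σ T a) = r • lg ((σ a₀).1, zz m σ T a') → a = a'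

/-- A statement about a front in a Hadamard space. -/
def OnF (P : MF → (V × V → V) → (V → V × V) → ℝ → Prop) : Prop :=
  ∀ (m : MF) (lg : V × V → V) (σ : V → V × V) (T : ℝ), m.OK → m.Jac → m.Up 0 → m.Had lg →
    m.Front σ → m.Good σ T → 0 < T → P m lg σ T

def SWID : Prop := OnF Wid

def SAR : Prop := OnF fun m lg σ T => Wid m lg σ T → sph (m.ar σ) ≤ 0

def SGB : Prop := OnF fun m lg σ T => Wid m lg σ T → ∀ lo hi, m.Up lo → m.Dn hi →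
  sph (fun a => |m.dt σ 0 a| - (hi - lo) / 2 * |m.dl σ a| - (hi + lo) / 2 * m.ar σ a) ≤
    sph fun _ => 1

/-! ### Block IN: integration and the end -/

/-- The scalars of the fronts are continuous and invariant. -/
structure Sc (m' : MF) (φ : V × V → V × V) (Γ : Type) [Group Γ] [MulAction Γ V]
    (O : Γ → V → V ≃ₗᵢ[ℝ] V) : Prop where
  cdt : ∀ c, ContinuousOn (fun z : V × V => m'.dt (fr φ z.1) c z.2) {z | z.2 ≠ 0}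
  cdl : ContinuousOn (fun z : V × V => m'.dl (fr φ z.1) z.2) {z | z.2 ≠ 0}
  inv : ∀ (γ : Γ) (z : V × V), ‖z.2‖ = 1 → ∃ e : ℝ, |e| = 1 ∧
    (∀ c, m'.dt (fr φ (γ • z.1)) c (O γ z.1 z.2) = e * m'.dt (fr φ z.1) c z.2) ∧
      m'.dl (fr φ (γ • z.1)) (O γ z.1 z.2) = e * m'.dl (fr φ z.1) z.2

def SSC : Prop := ∀ (m m' : MF) (φ : V × V → V × V) (Γ Λ : Type) [Group Γ] [Group Λ]
  [MulAction Γ V] [MulAction Λ V] (ρ : Γ ≃* Λ) O O', m.OK → m'.OK → CF m m' φ → Act m Γ O →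
  Act m' Λ O' → Eqv ρ O O' φ → Sc m' φ Γ O

/-- Averaging over the closed manifold. -/
def SINT : Prop := ∀ (m : MF) (Γ : Type) [Group Γ] [MulAction Γ V] O (F G q : V × V → ℝ),
  m.OK → m.Jac → Act m Γ O → FdP dm Γ → ContinuousOn F {z | ‖z.2‖ = 1} →
  ContinuousOn G {z | ‖z.2‖ = 1} → ContinuousOn q {z | ‖z.2‖ = 1} →
  (∀ (γ : Γ) (z : V × V), ‖z.2‖ = 1 → F (γ • z.1, O γ z.1 z.2) = F z ∧
    G (γ • z.1, O γ z.1 z.2) = G z ∧ q (γ • z.1, O γ z.1 z.2) = q z) →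
  (∀ z : V × V, ‖z.2‖ = 1 → 0 ≤ q z ∧ ∃ d, HasDerivAt (fun t => F (m.Z t z)) d 0 ∧
    d ≤ G z - q z) → (∀ x, sph (fun a => G (x, a)) ≤ 0) → ∀ z : V × V, ‖z.2‖ = 1 → q z = 0

/-- An equivariant isometry. -/
def Iso (g h : Met dm) {Γ Λ : Type} [Group Γ] [Group Λ] [MulAction Γ V] [MulAction Λ V]
    (ρ : Γ ≃* Λ) : Prop := ∃ F : V → V, Function.Bijective F ∧ ContDiff ℝ 1 F ∧
  (∀ x u v, h (F x) (fderiv ℝ F x u) (fderiv ℝ F x v) = g x u v) ∧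
    ∀ (γ : Γ) x, F (γ • x) = ρ γ • F x

def SEND : Prop := On2 fun g h C C' Γ Λ _ _ _ _ Φ Ψ ρ _ => ∀ (m m' : MF) O O' φ lg, m.OK →
  m.Jac → m'.OK → m'.Jac → Lk g C Φ m → Lk h C' Ψ m' → Act m Γ O → Act m' Λ O' → m'.Had lg →
  CF m m' φ → Eqv ρ O O' φ → (∀ x a, ‖a‖ = 1 → m'.A (fr φ x) a = 0) → Iso g h ρ

/-! ### The theorems -/

/-- Rigidity under a conjugacy of class `C¹`. -/
def MainA : Prop := On2 fun g h _ C' _ _ _ _ _ _ _ _ ρ F => ∀ a hi, 0 < a → hi < 3 * a ^ 2 →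
  TB.CurvLe g 0 → Pin h C' (a ^ 2) hi → C1L F → C1L F.symm → Iso g h ρ

/-- Block C0: under quarter pinching a conjugacy is of class `C¹`. -/
def MainB : Prop := On2 fun g h C C' _ _ _ _ _ _ _ _ _ F => ∀ a hi a' hi', ContDiff ℝ 3 g →
  ContDiff ℝ 3 h → 0 < a → hi < 4 * a ^ 2 → Pin g C (a ^ 2) hi → 0 < a' → hi' < 4 * a' ^ 2 →
  Pin h C' (a' ^ 2) hi' → C1L F

end

end Pool.Agent.MP_3ee8cb_gt.DN
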