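import Pool.Agent.MP_3ee8cb_gt.DN.Spec2
import Pool.Agent.MP_3ee8cb_gt.DN.Top
import Pool.Agent.MP_3ee8cb_gt.DNSC.Sc

/-! Rigidity in every dimension from the blocks. -/

namespace Pool.Agent.MP_3ee8cb_gt.DN

variable [Dim]

open Set MeasureTheory
open CR (Met UT)
open scoped RealInnerProductSpace

theorem inv_l {M : V →L[ℝ] V} (h : M.det ≠ 0) (e : V) : M.inverse (M e) = e := by
  rw [← M.coe_toContinuousLinearEquivOfDetNeZero h, ContinuousLinearMap.inverse_equiv]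
  exact ContinuousLinearEquiv.symm_apply_apply _ e

theorem inv_r {M : V →L[ℝ] V} (h : M.det ≠ 0) (e : V) : M (M.inverse e) = e := by
  rw [← M.coe_toContinuousLinearEquivOfDetNeZero h, ContinuousLinearMap.inverse_equiv]
  exact ContinuousLinearEquiv.apply_symm_apply _ e

theorem B_app {m : MF} {σ : V → V × V} {a : V} (h : (m.A' σ a).det ≠ 0) (e : V) :
    m.B σ a (m.A' σ a e) = m.A σ a e := by
  rw [MF.B, ContinuousLinearMap.comp_apply, inv_l h]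

theorem c_inv {X : Type} [TopologicalSpace X] {M : X → V →L[ℝ] V} {s : Set X}
    (c : ContinuousOn M s) (h : ∀ x ∈ s, (M x).det ≠ 0) :
    ContinuousOn (fun x => (M x).inverse) s := fun x hx => by
  have := (contDiffAt_map_inverse (n := 0)
    ((M x).toContinuousLinearEquivOfDetNeZero (h x hx))).continuousAt
  rw [(M x).coe_toContinuousLinearEquivOfDetNeZero (h x hx)] at this
  exact this.comp_continuousWithinAt (c x hx)

theorem c_tr : Continuous fun M : V →L[ℝ] V => LinearMap.trace ℝ V (M : V →ₗ[ℝ] V) :=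
  (LinearMap.trace ℝ V ∘ₗ ContinuousLinearMap.coeLM ℝ).continuous_of_finiteDimensional

theorem conj_eq (O : V ≃ₗᵢ[ℝ] V) {M M' : V →L[ℝ] V} (h : ∀ v, M' (O v) = O (M v)) :
    LinearMap.trace ℝ V (M' : V →ₗ[ℝ] V) = LinearMap.trace ℝ V (M : V →ₗ[ℝ] V) ∧
      ‖M'‖ = ‖M‖ := by
  refine ⟨?_, le_antisymm (M'.opNorm_le_bound (norm_nonneg _) fun v => ?_)
    (M.opNorm_le_bound (norm_nonneg _) fun v => ?_)⟩
  · rw [← LinearMap.trace_conj' (M : V →ₗ[ℝ] V) O.toLinearEquiv]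
    refine congrArg _ (LinearMap.ext fun v => ?_)
    have := h (O.symm v)
    rw [O.apply_symm_apply] at this
    exact this
  · have := h (O.symm v)
    rw [O.apply_symm_apply] at this
    rw [this, O.norm_map, ← O.symm.norm_map v]
    exact M.le_opNorm _
  · rw [← O.norm_map, ← h, ← O.norm_map v]
    exact M'.le_opNorm _

theorem sc_inv {m m' : MF} {φ : V × V → V × V} {Γ Λ : Type} [Group Γ] [Group Λ] [MulAction Γ V]
    [MulAction Λ V] {ρ : Γ ≃* Λ} {O : Γ → V → V ≃ₗᵢ[ℝ] V} {O' : Λ → V → V ≃ₗᵢ[ℝ] V}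
    (hc : CF m m' φ) (ha : Act m' Λ O') (he : Eqv ρ O O' φ) (γ : Γ) {z : V × V} (h0 : z.2 ≠ 0)
    (hd : (m'.A' (fr φ z.1) z.2).det ≠ 0) :
    |(m'.A' (fr φ (γ • z.1)) (O γ z.1 z.2)).det| = |(m'.A' (fr φ z.1) z.2).det| ∧
      m'.tr (fr φ (γ • z.1)) (O γ z.1 z.2) = m'.tr (fr φ z.1) z.2 ∧
      ‖m'.B (fr φ (γ • z.1)) (O γ z.1 z.2)‖ = ‖m'.B (fr φ z.1) z.2‖ := by
  obtain ⟨e, h1, h2⟩ := SC.det_conj (O γ z.1) (O' (ρ γ) (φ z).1)
  have e0 : fr φ (γ • z.1) (O γ z.1 z.2) = (ρ γ • (φ z).1, O' (ρ γ) (φ z).1 (φ z).2) := he γ z h0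
  have eA : ∀ v, m'.A (fr φ (γ • z.1)) (O γ z.1 z.2) (O γ z.1 v) =
      O' (ρ γ) (φ z).1 (m'.A (fr φ z.1) z.2 v) := fun v => by
    rw [MF.A, ContinuousLinearMap.comp_apply, SC.der_eqv hc.c1 ha he γ h0, e0]
    exact ha.hor _ _ _
  have eA' : ∀ v, m'.A' (fr φ (γ • z.1)) (O γ z.1 z.2) (O γ z.1 v) =
      O' (ρ γ) (φ z).1 (m'.A' (fr φ z.1) z.2 v) := fun v => by
    rw [MF.A', ContinuousLinearMap.comp_apply, SC.der_eqv hc.c1 ha he γ h0, e0]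
    exact ha.ver _ _ _
  have d : |(m'.A' (fr φ (γ • z.1)) (O γ z.1 z.2)).det| = |(m'.A' (fr φ z.1) z.2).det| := by
    rw [h2 _ _ eA', abs_mul, h1, one_mul]
  have hd' : (m'.A' (fr φ (γ • z.1)) (O γ z.1 z.2)).det ≠ 0 :=
    abs_ne_zero.1 (d ▸ abs_ne_zero.2 hd)
  refine ⟨d, conj_eq (O' (ρ γ) (φ z).1) fun u => ?_⟩
  rw [← inv_r hd u, ← eA', B_app hd', B_app hd, eA]

theorem ric_num {y d b : ℝ} (hy : 0 < y) (h0 : 0 ≤ b) (h1 : b ≤ 1)
    (h : d ≤ 2 * Real.log y - b ^ 2) : d ≤ 2 * (y * (1 - b ^ 2 / 8) - 1) - b ^ 2 / 2 := by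
  have b2 : b ^ 2 ≤ 1 := by nlinarith
  have q : 0 < 1 - b ^ 2 / 8 := by linarith
  have e1 := Real.log_le_sub_one_of_pos (mul_pos hy q)
  rw [Real.log_mul hy.ne' q.ne'] at e1
  have e2 := Real.one_sub_inv_le_log_of_pos q
  have e3 : (1 - b ^ 2 / 8)⁻¹ ≤ 1 + b ^ 2 / 4 := by
    rw [inv_le_iff_one_le_mul₀ q]
    nlinarith [sq_nonneg b]
  linarith

theorem mainN_of (jac : SJAC) (frm : SFRM) (had : SHAD) (act : SACT) (flp : SFLP) (sc1 : SC1)
    (scf : SCF) (ssy : SSY) (sod : SOD2) (wid : SWID) (shn : SHN) (sd0 : SD0) (sfi : SFI)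
    (int : SINT) (fin : SEND) : ∃ δ, 0 < δ ∧ MainN δ := by
  obtain ⟨δ, hδ, sfi⟩ := sfi
  refine ⟨δ, hδ, ?_⟩
  intro g h _ C' Γ Λ _ _ _ _ Φ Ψ ρ F qg qh _ ch dΓ dΛ cj a hi ha hhi ⟨C, cg, kg⟩ kh f1 f2
  have kh' : TB.CurvLe h a := ⟨C', ch, fun x u v => (kh x u v).2⟩
  obtain ⟨m, o, l⟩ := frm g C Γ Φ qg cg
  obtain ⟨m', o', l'⟩ := frm h C' Λ Ψ qh ch
  have j := jac m o
  have j' := jac m' o'
  obtain ⟨O, aO⟩ := act g C Γ Φ qg cg m o l dΓ
  obtain ⟨O', aO'⟩ := act h C' Λ Ψ qh ch m' o' l' dΛ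
  obtain ⟨lg, hl, hd⟩ := had h C' Λ Ψ qh ch m' a o' j' l' ha kh'
  have hin := shn h C' Λ Ψ qh ch m' lg a o' l' ha kh' hd
  obtain ⟨mn, s, F', e, cj', fl⟩ := flp g h C C' Γ Λ Φ Ψ ρ F qg qh cg ch dΓ dΛ cj a ha kh'
  obtain ⟨g1, g2⟩ := sc1 g h C C' Γ Λ Φ Ψ ρ F qg qh cg ch dΓ dΛ cj s F' e f1 f2
  obtain ⟨φ, cf, eq⟩ := scf g h C C' Γ Λ Φ Ψ ρ F' qg qh cg ch dΓ dΛ cj' m m' O O' o j o' j' l l'
    aO aO' mn fl g1 g2
  have cs : ∀ u v : V, 0 ≤ ‖u‖ ^ 2 * ‖v‖ ^ 2 - ⟪u, v⟫ ^ 2 := fun u v => by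
    have := real_inner_mul_inner_self_le u v
    rw [real_inner_self_eq_norm_sq, real_inner_self_eq_norm_sq] at this
    nlinarith
  have u0 : m.Up 0 := fun y u v => by
    have := kg y (m.R y u) (m.R y v)
    rw [(l.sec o y u v).1]
    linarith
  have u1 : m'.Up (a ^ 2) := fun y u v => by
    have := (kh y (m'.R y u) (m'.R y v)).2
    rw [(l'.sec o' y u v).1, ← (l'.sec o' y u v).2]
    linarith
  have d1 : m'.Dn hi := fun y u v => by
    have := (kh y (m'.R y u) (m'.R y v)).1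
    rw [(l'.sec o' y u v).1, ← (l'.sec o' y u v).2]
    linarith
  have d2 : m'.Dn ((1 + δ) * a ^ 2) := fun y u v =>
    (d1 y u v).trans (mul_le_mul_of_nonneg_right hhi (cs u v))
  have u2 : m'.Up 0 := fun y u v =>
    le_trans (mul_le_mul_of_nonneg_right (sq_nonneg a) (cs u v)) (u1 y u v)
  obtain ⟨sy, ft⟩ := ssy m m' φ a hi o j o' j' cf ha u0 u1 d1
  obtain ⟨⟨T₀, gd⟩, ric⟩ := sod m m' φ a hi o j o' j' cf ha u0 u1 d1 sy
  have sub : {z : V × V | ‖z.2‖ = 1} ⊆ {z | z.2 ≠ 0} := fun z hz e => by simp [e] at hz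
  have cA := (SC.c_A o' cf.c1).mono sub
  have cA' := (SC.c_A' o' cf.c1).mono sub
  have cB : ContinuousOn (fun z : V × V => m'.B (fr φ z.1) z.2) {z | ‖z.2‖ = 1} :=
    cA.clm_comp (c_inv cA' fun z hz => (ric z hz).ne)
  have cb := ((continuousOn_const (c := a)).mul cB.norm).pow 2
  have cG := (ContinuousLinearMap.continuous_det.comp_continuousOn cA').abs.mul
    ((continuousOn_const (c := (1 : ℝ))).sub (cb.div_const 8))
  have key := int m Γ O (fun z => m'.tr (fr φ z.1) z.2)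
    (fun z => 2 * (|(m'.A' (fr φ z.1) z.2).det| * (1 - (a * ‖m'.B (fr φ z.1) z.2‖) ^ 2 / 8) - 1))
    (fun z => (a * ‖m'.B (fr φ z.1) z.2‖) ^ 2 / 2) o j aO (CR.fd dm g Γ qg.rp.deck)
    (c_tr.comp_continuousOn cB) (continuousOn_const.mul (cG.sub continuousOn_const))
    (cb.div_const 2)
    (fun γ z hz => by
      obtain ⟨h1, h2, h3⟩ := sc_inv cf aO' eq γ (sub hz) (ric z hz).ne
      simp only [h1, h2, h3, and_self])
    (fun z hz => ⟨by positivity, (ric z hz).der.imp fun d hd =>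
      ⟨hd.1, ric_num (abs_pos.2 (ric z hz).ne) (by positivity) (ric z hz).bd hd.2⟩⟩)
    fun x => by
      have G : m'.Good (fr φ x) (max T₀ 1) := ⟨(gd x).inj, (gd x).sym, fun a e t h1 h2 h3 h4 =>
        (gd x).pos a e t h1 h2 h3 ((le_max_left _ _).trans h4)⟩
      have T : (0 : ℝ) < max T₀ 1 := lt_max_of_lt_right one_pos
      have W := wid m' lg _ _ o' j' u2 hl (ft x) G T
      have i : ContinuousOn (fun a : V => (x, a)) {a | ‖a‖ = 1} := by fun_prop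
      have k := sfi m' lg (fr φ x) a o' j' hl (ft x) ha u2 u1 d2
        (sd0 m' lg _ _ o' j' u2 hl (ft x) G T W a ha hin)
        fun v hv => ⟨(ric (x, v) hv).ne, (ric (x, v) hv).bd⟩
      have := integral_sub (sph_int (cG.comp i fun _ h => h))
        (sph_int (f := fun _ => 1) continuousOn_const)
      unfold sph at k ⊢
      rw [integral_const_mul]
      exact mul_nonpos_of_nonneg_of_nonpos zero_le_two (this.trans_le (sub_nonpos.2 k))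
  refine fin g h C C' Γ Λ Φ Ψ ρ F' qg qh cg ch dΓ dΛ cj' m m' O O' φ lg o j o' j' l l' aO aO' hl cf
    eq fun x b hb => ContinuousLinearMap.ext fun v => ?_
  have k : (a * ‖m'.B (fr φ x) b‖) ^ 2 / 2 = 0 := key (x, b) hb
  have k2 : m'.B (fr φ x) b = 0 := by simpa [ha.ne'] using k
  rw [← B_app (ric (x, b) hb).ne, k2]
  rfl

end Pool.Agent.MP_3ee8cb_gt.DN
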