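import Pool.Agent.MP_3ee8cb_gt.DN.One
import Pool.Agent.MP_3ee8cb_gt.DNFL.All
import Pool.Agent.MP_3ee8cb_gt.DNOD.Fin
import Pool.Agent.MP_3ee8cb_gt.DND0.Fin
import Pool.Agent.MP_3ee8cb_gt.DNA.Ga
import Pool.Agent.MP_3ee8cb_gt.DNC.Fin
import Pool.Agent.MP_3ee8cb_gt.DNP.Fin
import Pool.Agent.MP_3ee8cb_gt.DNP.Pw

/-! Rigidity in every dimension from the fibre inequality. -/

namespace Pool.Agent.MP_3ee8cb_gt.DN

variable [Dim]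

theorem mainN_fi (fi : SFI) : ∃ δ, 0 < δ ∧ MainN δ :=
  mainN_of sJAC sFRM DNFL.had sACT DNFL.flp (sC1_of sFRM) sCF LN.ssy sOD2 DNWI.swid sHN sD0 fi
    sINT sEND

theorem mainN_tr (tr : STR) (g : SG) : ∃ δ, 0 < δ ∧ MainN δ :=
  mainN_fi (fi_of tr (sGA_of g) (pw_of sPO sCOV))

end Pool.Agent.MP_3ee8cb_gt.DN
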