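import Pool.Agent.MP_3ee8cb_gt.DN.Fin
import Pool.Agent.MP_3ee8cb_gt.DNTR.Fin
import Pool.Agent.MP_3ee8cb_gt.DNGA.Pol
import Pool.Agent.MP_3ee8cb_gt.DNG.Fin

/-! Rigidity in every dimension under pinching. -/

namespace Pool.Agent.MP_3ee8cb_gt.DN

variable [Dim]

theorem mainN : ∃ δ, 0 < δ ∧ MainN δ := mainN_tr (tr_of sPOL) sG

end Pool.Agent.MP_3ee8cb_gt.DN
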